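import Pool.Agent.N609.Mon.Main
import Pool.Agent.N609.Mon.Band

/-!
# A dichotomy for the log-rank conjecture for functions of the product in finite monoids

`F(x, y) = f(x y)` with `x, y` in a product of (unboundedly many) finite monoids of bounded size and
`f` an arbitrary Boolean function.
-/

set_option autoImplicit false

namespace Pool.Agent.Results.MP_e5d384_lc.MonoidProducts

open Pool.Agent.N609.Mon

/-- `F` has a deterministic two-party protocol with exactly `c` bits. (Protocols exactly as in the
frozen statement S15531: `t` is the transcript so far, `owner t` says who speaks, and the answer is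
a function of the transcript.) -/
def HasProtocol {X Y : Type} (F : X → Y → Bool) (c : ℕ) : Prop :=
  ∃ (owner : List Bool → Bool) (a : List Bool → X → Bool)
      (b : List Bool → Y → Bool) (out : List Bool → Bool),
      ∀ x y, out (Nat.iterate
        (fun t : List Bool => t ++ [if owner t then a t x else b t y]) c []) = F x y

/-- the real rank of the communication matrix of `F` -/
noncomputable def rk {X Y : Type} [Fintype X] [Fintype Y] (F : X → Y → Bool) : ℕ :=
  (Matrix.of (fun (x : X) (y : Y) => if F x y then (1 : ℝ) else 0)).rank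

/-- `F(x, y) = f(x y)` -/
def prodFun {S : Type} [Mul S] (f : S → Bool) : S → S → Bool := fun x y => f (x * y)

/-- the matrix of `G` is a submatrix of the matrix of `F` (rows and columns may be repeated) -/
def IsSub {X Y A B : Type} (G : X → Y → Bool) (F : A → B → Bool) : Prop :=
  ∃ (α : X → A) (β : Y → B), ∀ x y, F (α x) (β y) = G x y

/-- **The log-rank conjecture for products in finite monoids: a dichotomy.** A finite monoid `S` is
called tame if every character `S → (ℂ, ·)` has only the values `0` and `1` and the monoid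
`{1, a, 0}` with `a² = 0` is not a quotient of `S`. (All monoids generated by idempotents are tame,
and so are all perfect groups: see `tame_of_idem`, `tame_of_perfect`.)

If the finite monoids `S i`, `i ∈ ι`, are tame and have at most `K` elements, then for every
Boolean function `f` on the product `∏ S i` the function `F(x, y) = f(x y)` has a protocol with at
most `3·10^11 ((log₂ K + 1) (log₂ rank F + 1))^11` bits, for any number of factors.

If `S` is not tame, then either every Boolean matrix `G` is a submatrix of some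
`F(x, y) = f(x y)` on a power of `S` with `rank F ≤ 2 rank G + 2`, or there is a prime `p` such that
every function `g(x + y)` on `(ℤ/p)^n` is a submatrix of some `F(x, y) = f(x y)` on `S^n` with
`rank F ≤ rank G`.

The bound for the size of the factors cannot be dropped without proving the whole conjecture:
every Boolean matrix `G` is a submatrix of some `F(x, y) = f(x y)` on a single finite tame monoid,
with `rank F ≤ rank G + 2`. -/
theorem result :
    (∀ (ι : Type) [Fintype ι] [DecidableEq ι] (S : ι → Type) [∀ i, Fintype (S i)]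
      [∀ i, Monoid (S i)] (K : ℕ), (∀ i, Tame (S i)) → (∀ i, Fintype.card (S i) ≤ K) →
      ∀ f : (∀ i, S i) → Bool, ∃ c : ℕ, HasProtocol (prodFun f) c ∧
        (c : ℝ) ≤ 3 * 10 ^ 11 *
          ((Real.logb 2 K + 1) * (Real.logb 2 (rk (prodFun f)) + 1)) ^ 11) ∧
    (∀ (S : Type) [Fintype S] [Monoid S], ¬ Tame S →
      (∀ (X Y : Type) [Fintype X] [Fintype Y] [DecidableEq X] [DecidableEq Y]
        (G : X → Y → Bool), ∃ f : (X ⊕ Y → S) → Bool,
          IsSub G (prodFun f) ∧ rk (prodFun f) ≤ 2 * rk G + 2) ∨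
      (∃ (p : ℕ) (_ : Fact p.Prime), ∀ (n : ℕ) (g : (Fin n → ZMod p) → Bool),
        ∃ f : (Fin n → S) → Bool, IsSub (fun x y => g (x + y)) (prodFun f) ∧
          rk (prodFun f) ≤ rk (fun x y => g (x + y)))) ∧
    (∀ (X Y : Type) [Fintype X] [Fintype Y] (G : X → Y → Bool),
      ∃ (S : Type) (_ : Fintype S) (_ : Monoid S) (f : S → Bool),
        Tame S ∧ IsSub G (prodFun f) ∧ rk (prodFun f) ≤ rk G + 2) := by
  refine ⟨?_, ?_, ?_⟩
  · intro ι _ _ S _ _ K hT hK f
    have h1 := tame_main hT f (k := Nat.clog 2 K)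
      (fun i => (hK i).trans (Nat.le_pow_clog (by norm_num) K))
    refine ⟨_, h1, ?_⟩
    have hr : (Matrix.of (fun x y : ∀ i, S i => if f (x * y) then (1 : ℝ) else 0)).rank =
        rk (prodFun f) := rfl
    rw [hr]
    set r := rk (prodFun f) with hrdef
    have hl : (Nat.log 2 r : ℝ) ≤ Real.logb 2 (r : ℝ) := by
      exact_mod_cast Real.natLog_le_logb r 2
    have hK0 : 0 ≤ Real.logb 2 (K : ℝ) := by
      rcases Nat.eq_zero_or_pos K with h | h
      · rw [h]
        simp
      · exact Real.logb_nonneg (by norm_num) (by exact_mod_cast h)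
    have hk : (Nat.clog 2 K : ℝ) ≤ Real.logb 2 (K : ℝ) + 1 := by
      by_cases h2 : 1 < K
      · have h3 := Nat.pow_pred_clog_lt_self (b := 2) (by norm_num) h2
        have h4 : (((Nat.clog 2 K).pred : ℕ) : ℝ) ≤ Real.logb 2 (K : ℝ) := by
          rw [Real.le_logb_iff_rpow_le (by norm_num) (by exact_mod_cast (by omega : 0 < K)),
            Real.rpow_natCast]
          exact_mod_cast h3.le
        have h5 : (Nat.clog 2 K : ℝ) ≤ (((Nat.clog 2 K).pred : ℕ) : ℝ) + 1 := by
          exact_mod_cast (by
            rw [Nat.pred_eq_sub_one]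
            omega : Nat.clog 2 K ≤ (Nat.clog 2 K).pred + 1)
        linarith
      · rw [Nat.clog_of_right_le_one (by omega)]
        push_cast
        linarith
    push_cast
    have h6 : (2 * (Nat.clog 2 K : ℝ) + 3) * ((Nat.log 2 r : ℝ) + 1) ≤
        5 * ((Real.logb 2 K + 1) * (Real.logb 2 (r : ℝ) + 1)) := by
      have h7 : 2 * (Nat.clog 2 K : ℝ) + 3 ≤ 5 * (Real.logb 2 K + 1) := by linarith
      calc (2 * (Nat.clog 2 K : ℝ) + 3) * ((Nat.log 2 r : ℝ) + 1)
          ≤ (5 * (Real.logb 2 K + 1)) * (Real.logb 2 (r : ℝ) + 1) := by gcongr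
        _ = 5 * ((Real.logb 2 K + 1) * (Real.logb 2 (r : ℝ) + 1)) := by ring
    have h8 : 0 ≤ (Real.logb 2 (K : ℝ) + 1) * (Real.logb 2 (r : ℝ) + 1) := by
      have : (0 : ℝ) ≤ Nat.log 2 r := Nat.cast_nonneg _
      exact mul_nonneg (by linarith) (by linarith)
    calc (5472 : ℝ) * ((2 * (Nat.clog 2 K : ℝ) + 3) * ((Nat.log 2 r : ℝ) + 1)) ^ 11
        ≤ 5472 * (5 * ((Real.logb 2 K + 1) * (Real.logb 2 (r : ℝ) + 1))) ^ 11 := by gcongr
      _ = 5472 * 5 ^ 11 * ((Real.logb 2 K + 1) * (Real.logb 2 (r : ℝ) + 1)) ^ 11 := by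
          rw [mul_pow]
          ring
      _ ≤ 3 * 10 ^ 11 * ((Real.logb 2 K + 1) * (Real.logb 2 (r : ℝ) + 1)) ^ 11 := by
          refine mul_le_mul_of_nonneg_right (by norm_num) (pow_nonneg h8 _)
  · intro S _ _ hS
    unfold Tame at hS
    rw [not_and_or, not_not] at hS
    rcases hS with hS | ⟨π, hπ⟩
    · right
      push Not at hS
      obtain ⟨χ, s, h0, h1⟩ := hS
      obtain ⟨p, hp, h⟩ := conv_char χ h0 h1
      refine ⟨p, hp, fun n g => ?_⟩
      obtain ⟨f, α, h2, h3⟩ := h n g
      exact ⟨f, ⟨α, α, h2⟩, h3⟩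
    · left
      intro X Y _ _ _ _ G
      obtain ⟨f, α, β, h2, h3⟩ := conv_nil π hπ G
      exact ⟨f, ⟨α, β, h2⟩, h3⟩
  · intro X Y _ _ G
    obtain ⟨S, i1, i2, f, α, β, h1, h2, h3⟩ := exists_band G
    exact ⟨S, i1, i2, f, tame_of_idem S h1, ⟨α, β, h2⟩, h3⟩

end Pool.Agent.Results.MP_e5d384_lc.MonoidProducts
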