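import Pool.Agent.N609.AndRank.Semi

/-!
# The log-rank conjecture for functions of the meet (AND-functions)

`F(x, y) = f(x * y)` for an arbitrary finite commutative idempotent semigroup; for `P = F_2^n` with
the coordinatewise product these are the functions `F(x, y) = f(x ∧ y)`.
-/

set_option autoImplicit false

namespace Pool.Agent.Results.MP_e5d384_lc.SemilatticeFunctions

/-- `F` has a deterministic two-party protocol with exactly `c` bits. (Protocols exactly as in the
frozen statement S15531: `t` is the transcript so far, `owner t` says who speaks, and the answer is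
a function of the transcript.) -/
def HasProtocol {X Y : Type} (F : X → Y → Bool) (c : ℕ) : Prop :=
  ∃ (owner : List Bool → Bool) (a : List Bool → X → Bool)
      (b : List Bool → Y → Bool) (out : List Bool → Bool),
      ∀ x y, out (Nat.iterate
        (fun t : List Bool => t ++ [if owner t then a t x else b t y]) c []) = F x y

/-- `log₂` of the real rank of the communication matrix of `F` (`0` if the rank is `0`) -/
noncomputable def logRank {X Y : Type} [Fintype X] [Fintype Y] (F : X → Y → Bool) : ℝ :=
  Real.logb 2 ((Matrix.of (fun (x : X) (y : Y) => if F x y then (1 : ℝ) else 0)).rank : ℝ)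

/-- **The log-rank conjecture for functions of the meet.** Let `P` be a finite commutative
semigroup in which every element is idempotent (a finite semilattice), and let `f : P → {0,1}` be
any function. Then `F(x, y) = f(x * y)` has a deterministic protocol with at most
`1152 (log₂ rank F + 2)^11` bits. For `P = F_2^n` with the coordinatewise product, this is the
conjecture (S15531) for all functions `F(x, y) = f(x ∧ y)`. -/
theorem result (P : Type) [Fintype P] [CommSemigroup P] (hP : ∀ a : P, a * a = a)
    (f : P → Bool) :
    ∃ c : ℕ, HasProtocol (fun x y : P => f (x * y)) c ∧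
      (c : ℝ) ≤ 1152 * (logRank (fun x y : P => f (x * y)) + 2) ^ 11 := by
  classical
  let _ : Min P := ⟨fun a b => a * b⟩
  let _ : SemilatticeInf P := SemilatticeInf.mk' (fun a b => mul_comm a b)
    (fun a b c => mul_assoc a b c) hP
  set r := (Matrix.of (fun x y : P => if f (x * y) then (1 : ℝ) else 0)).rank with hr
  have hlog : logRank (fun x y : P => f (x * y)) = Real.logb 2 (r : ℝ) := rfl
  have h1 := Pool.Agent.N609.AndRank.semi_main (P := P) f (Nat.log 2 (r + 1) + 1) (by omega)
    (Nat.lt_pow_succ_log_self (by norm_num) (r + 1))
  refine ⟨1152 * (Nat.log 2 (r + 1) + 1) ^ 11, h1, ?_⟩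
  rw [hlog]
  push_cast
  have h2 : (Nat.log 2 (r + 1) : ℝ) + 1 ≤ Real.logb 2 (r : ℝ) + 2 := by
    rcases Nat.eq_zero_or_pos r with h0 | h0
    · rw [h0]
      norm_num
    · have h3 : (Nat.log 2 (r + 1) : ℝ) ≤ Real.logb 2 ((r + 1 : ℕ) : ℝ) := by
        rw [Real.le_logb_iff_rpow_le (by norm_num) (by positivity), Real.rpow_natCast]
        exact_mod_cast Nat.pow_log_le_self 2 (by omega)
      have hr0 : (0 : ℝ) < r := by exact_mod_cast h0
      have h4 : Real.logb 2 ((r + 1 : ℕ) : ℝ) ≤ Real.logb 2 (2 * (r : ℝ)) := by
        refine Real.logb_le_logb_of_le (by norm_num) (by positivity) ?_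
        push_cast
        have : (1 : ℝ) ≤ r := by exact_mod_cast h0
        linarith
      rw [Real.logb_mul (by norm_num) hr0.ne', Real.logb_self_eq_one (by norm_num)] at h4
      linarith
  gcongr

end Pool.Agent.Results.MP_e5d384_lc.SemilatticeFunctions
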