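import Pool.Agent.N609.AndRank.Gad

/-!
# The log-rank conjecture for all block compositions without inner functions `u(x) + v(y)`

`F(x, y) = g(f_1(x_1, y_1), ..., f_k(x_k, y_k))` with an arbitrary outer Boolean function `g` and
arbitrary (different, unbounded) inner functions `f_i`, none of which has the form `u(x) + v(y)`
modulo 2. Conjunctions are allowed, so this contains all the functions `F(x, y) = g(x ∧ y)`.
-/

set_option autoImplicit false

namespace Pool.Agent.Results.MP_e5d384_lc.XorFreeComposition

/-- `F` has a deterministic two-party protocol with exactly `c` bits. (Protocols exactly as in the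
frozen statement S15531: `t` is the transcript so far, `owner t` says who speaks, and the answer is
a function of the transcript.) -/
def HasProtocol {X Y : Type} (F : X → Y → Bool) (c : ℕ) : Prop :=
  ∃ (owner : List Bool → Bool) (a : List Bool → X → Bool)
      (b : List Bool → Y → Bool) (out : List Bool → Bool),
      ∀ x y, out (Nat.iterate
        (fun t : List Bool => t ++ [if owner t then a t x else b t y]) c []) = F x y

/-- `log₂` of the real rank of the communication matrix of `F` (`0` if the rank is `0`) -/
noncomputable def logRank {X Y : Type} [Fintype X] [Fintype Y] (F : X → Y → Bool) : ℝ :=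
  Real.logb 2 ((Matrix.of (fun (x : X) (y : Y) => if F x y then (1 : ℝ) else 0)).rank : ℝ)

/-- `f(x, y) = u(x) + v(y)` modulo 2 for some one-sided functions `u`, `v` -/
def IsXorType {X Y : Type} (f : X → Y → Bool) : Prop :=
  ∃ (u : X → Bool) (v : Y → Bool), ∀ x y, f x y = xor (u x) (v y)

/-- the block composition `F(x, y) = g(f_1(x_1, y_1), ..., f_k(x_k, y_k))` -/
def compose {k : ℕ} {X Y : Fin k → Type} (g : (Fin k → Bool) → Bool)
    (f : ∀ i, X i → Y i → Bool) : (∀ i, X i) → (∀ i, Y i) → Bool :=
  fun x y => g (fun i => f i (x i) (y i))

/-- **The log-rank conjecture for block compositions without XOR-type inner functions.** Let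
`F = g(f_1, ..., f_k)` be a block composition with an arbitrary outer function
`g : {0,1}^k → {0,1}` and arbitrary inner functions `f_i : X_i × Y_i → {0,1}` on arbitrary finite
sets, none of which is of the form `u(x) + v(y)` modulo 2. If every inner function has a protocol
with at most `K (log₂ rank f_i + 1)^C` bits, then `F` has a protocol with at most
`288 (18 + K 3^C) (log₂ rank F + 1)^(max(C,4)+7)` bits. (`C = 0`: it is enough that every inner
function has a protocol with at most `K` bits, e.g. `K = 2` if all the inner functions are
conjunctions of two bits.) -/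
theorem result (K C k : ℕ) (X Y : Fin k → Type) [∀ i, Fintype (X i)] [∀ i, Fintype (Y i)]
    (f : ∀ i, X i → Y i → Bool) (g : (Fin k → Bool) → Bool) (hf : ∀ i, ¬ IsXorType (f i))
    (hK : ∀ i, ∃ c : ℕ, HasProtocol (f i) c ∧ (c : ℝ) ≤ K * (logRank (f i) + 1) ^ C) :
    ∃ c : ℕ, HasProtocol (compose g f) c ∧
      (c : ℝ) ≤ 288 * (18 + K * 3 ^ C) * (logRank (compose g f) + 1) ^ (max C 4 + 7) := by
  classical
  have hcomp : Pool.Agent.TH744.LR.comp (fun U : Finset (Fin k) => g (fun i => decide (i ∈ U)))
        (Pool.Agent.TH744.LR.inner f) = compose g f := by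
    funext x y
    simp only [Pool.Agent.TH744.LR.comp, compose]
    congr 1
    funext i
    rw [Bool.eq_iff_iff, decide_eq_true_iff, Finset.mem_filter]
    simp [Pool.Agent.TH744.LR.inner]
  have h := Pool.Agent.N609.AndRank.final f hf
    (fun U : Finset (Fin k) => g (fun i => decide (i ∈ U))) K C hK
  rw [hcomp] at h
  exact h

end Pool.Agent.Results.MP_e5d384_lc.XorFreeComposition
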